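import Pool.Agent.N309.LO.CentMat

set_option autoImplicit false
set_option linter.unusedSectionVars false

open scoped InnerProductSpace InnerProduct ENNReal

/-! Kernels of matrices over central extensions: staircases in the components. -/

namespace Run7.h623.CS

open Pool.Agent.W649.ZL Pool.Agent.N309.LO

universe u v w z y

section
variable {G : Type u} [Group G] {Z : Type v} [CommGroup Z] [Fintype Z] (ι : Z →* G)
  {K : Type w} {L : Type z} [Fintype K] [Fintype L] [DecidableEq K] [DecidableEq L]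

theorem rc_cp_zero (hc : ∀ z g, ι z * g = g * ι z) (χ : Du Z) (x : G → ℂ) (hx : IsoP ι χ x)
    (α : G →₀ ℂ) (h0 : cp ι χ α = 0) (g : G) : rc x α g = 0 := by
  have h1 := rc_cp ι hc χ x hx α g
  rw [h0, rc_zero] at h1
  rcases mul_eq_zero.1 h1.symm with h2 | h2
  · exact absurd h2 (Nat.cast_ne_zero.2 Fintype.card_ne_zero)
  · exact h2

theorem rc_zero_left (α : G →₀ ℂ) (g : G) (x : G → ℂ) (hx : x = 0) : rc x α g = 0 := by
  rw [hx, rc_def]
  apply Finset.sum_eq_zero
  intro y _
  exact zero_mul _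

/-- double counting -/
theorem count (P : K → Du Z → Prop) [∀ k χ, Decidable (P k χ)] :
    ∑ k : K, (Finset.univ.filter (fun χ => P k χ)).card
      = ∑ χ : Du Z, (Finset.univ.filter (fun k => P k χ)).card := by
  simp only [Finset.card_filter]
  exact Finset.sum_comm

theorem stair_upper {X : Type y} [MulAction G X] [LinearOrder X] (hX : OrdInv G X)
    (hc : ∀ z g, ι z * g = g * ι z) (hinj : Function.Injective ι)
    (b : X) (hstab : ∀ g : G, g • b = b ↔ g ∈ Set.range ι) (A : K → L → (G →₀ ℂ))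
    (t : Du Z → ℕ) (kk : ∀ χ, Fin (t χ) → K) (jj : ∀ χ, Fin (t χ) → L)
    (h1 : ∀ χ i, cp ι χ (A (kk χ i) (jj χ i)) ≠ 0)
    (h2 : ∀ χ i i', i < i' → cp ι χ (A (kk χ i') (jj χ i)) = 0) :
    kerDimM A ≤ (Fintype.card K : ℝ) - ((∑ χ, t χ : ℕ) : ℝ) / Fintype.card Z := by
  classical
  obtain ⟨T, hT⟩ := exists_T A
  have hvd : kerDimM A = vd (LinearMap.ker (opT T A : EE G K →ₗ[ℂ] EE G L)) :=
    kerDimM_eq_vd T A hT
  have hkr := ker_add_range (opT T A) (opT_eqv T A)
  have hki : ∀ χ, Function.Injective (kk χ) := by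
    intro χ i i' h
    by_contra hne
    rcases lt_or_gt_of_ne hne with hlt | hlt
    · apply h1 χ i
      rw [h]
      exact h2 χ i i' hlt
    · apply h1 χ i'
      rw [← h]
      exact h2 χ i' i hlt
  let U : K → Finset (Du Z) := fun k => Finset.univ.filter (fun χ => ∃ i, kk χ i = k)
  have hU : (∑ k : K, (U k).card) = ∑ χ, t χ := by
    rw [count (fun k χ => ∃ i, kk χ i = k)]
    refine Finset.sum_congr rfl fun χ _ => ?_
    have e : (Finset.univ.filter (fun k : K => ∃ i, kk χ i = k)) = Finset.univ.image (kk χ) := by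
      ext k
      simp
    rw [e, Finset.card_image_of_injective _ (hki χ), Finset.card_univ, Fintype.card_fin]
  have hrn := rank_nullity (opT T A) (opT_eqv T A) (U := isoS ι U) (isoS_inv ι U) (isoS_closed ι U)
  have hbot : isoS ι U ⊓ LinearMap.ker (opT T A : EE G K →ₗ[ℂ] EE G L) = ⊥ := by
    rw [eq_bot_iff]
    rintro F ⟨hF1, hF2⟩
    have hF2' : opT T A F = 0 := hF2
    rw [Submodule.mem_bot]
    have hst : ∀ (χ : Du Z) (n : ℕ) (i : Fin (t χ)), (i : ℕ) = n →
        (fun h => pt ι χ F (h⁻¹, kk χ i)) = 0 := by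
      intro χ n
      induction n using Nat.strong_induction_on with
      | _ n ih =>
        intro i hi
        apply key_iso ι hX hc hinj b hstab χ _ (isoP_pt ι χ F (kk χ i)) (memlp_slice _ _)
          (A (kk χ i) (jj χ i)) _ (h1 χ i)
        intro g'
        have e1 := opT_pt ι hc T A hT χ F
        rw [hF2', map_zero] at e1
        have e2 := opT_rc T A hT (pt ι χ F) g'⁻¹ (jj χ i)
        rw [e1, inv_inv] at e2
        have e3 : (0 : ℂ) = ∑ k' : K, rc (fun h => pt ι χ F (h⁻¹, k')) (A k' (jj χ i)) g' := e2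
        rw [Finset.sum_eq_single (kk χ i)] at e3
        · exact e3.symm
        · intro k' _ hk'
          by_cases hk : ∃ i', kk χ i' = k'
          · obtain ⟨i', rfl⟩ := hk
            have hne : i' ≠ i := fun h => hk' (by rw [h])
            rcases lt_or_gt_of_ne hne with hlt | hlt
            · exact rc_zero_left _ _ _ (ih i' (by rw [← hi]; exact hlt) i' rfl)
            · exact rc_cp_zero ι hc χ _ (isoP_pt ι χ F _) _ (h2 χ i i' hlt) _
          · apply rc_zero_left
            funext h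
            apply hF1 χ k' h⁻¹
            intro h5
            exact hk (Finset.mem_filter.1 h5).2
        · intro h
          exact absurd (Finset.mem_univ _) h
    have hall : ∀ (χ : Du Z) (k : K) (g : G), pt ι χ F (g, k) = 0 := by
      intro χ k g
      by_cases hχ : χ ∈ U k
      · obtain ⟨i, rfl⟩ := (Finset.mem_filter.1 hχ).2
        have h5 := congrFun (hst χ i i rfl) g⁻¹
        simpa using h5
      · exact hF1 χ k g hχ
    ext ⟨g, k⟩
    have e1 := inversion ι F g k
    rw [Finset.sum_congr rfl fun χ _ => hall χ k g, Finset.sum_const_zero] at e1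
    rcases mul_eq_zero.1 e1.symm with e2 | e2
    · exact absurd e2 (Nat.cast_ne_zero.2 Fintype.card_ne_zero)
    · exact e2
  rw [hbot, vd_bot, zero_add, vd_isoS ι hinj, hU] at hrn
  have h3 : vd ((isoS ι U).map (opT T A : EE G K →ₗ[ℂ] EE G L))
      ≤ vd (LinearMap.range (opT T A : EE G K →ₗ[ℂ] EE G L)) := vd_mono (by
    rintro _ ⟨F, _, rfl⟩
    exact ⟨F, rfl⟩)
  rw [hvd]
  linarith

/-- the rows with a nonzero component -/
noncomputable def Rw (A : K → L → (G →₀ ℂ)) (χ : Du Z) : Finset K := by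
  classical
  exact Finset.univ.filter (fun k => ∃ j, cp ι χ (A k j) ≠ 0)

/-- the columns with a nonzero component -/
noncomputable def Cl (A : K → L → (G →₀ ℂ)) (χ : Du Z) : Finset L := by
  classical
  exact Finset.univ.filter (fun j => ∃ k, cp ι χ (A k j) ≠ 0)

theorem mem_Rw (A : K → L → (G →₀ ℂ)) (χ : Du Z) (k : K) :
    k ∈ Rw ι A χ ↔ ∃ j, cp ι χ (A k j) ≠ 0 := by
  classical
  unfold Rw
  simp

theorem mem_Cl (A : K → L → (G →₀ ℂ)) (χ : Du Z) (j : L) :
    j ∈ Cl ι A χ ↔ ∃ k, cp ι χ (A k j) ≠ 0 := by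
  classical
  unfold Cl
  simp

theorem min_lower (hc : ∀ z g, ι z * g = g * ι z) (hinj : Function.Injective ι)
    (A : K → L → (G →₀ ℂ)) :
    (Fintype.card K : ℝ)
      - ((∑ χ, min (Rw ι A χ).card (Cl ι A χ).card : ℕ) : ℝ) / Fintype.card Z ≤ kerDimM A := by
  classical
  obtain ⟨T, hT⟩ := exists_T A
  have hvd : kerDimM A = vd (LinearMap.ker (opT T A : EE G K →ₗ[ℂ] EE G L)) :=
    kerDimM_eq_vd T A hT
  let Ξ : Du Z → Prop := fun χ => (Rw ι A χ).card ≤ (Cl ι A χ).card
  let T1 : K → Finset (Du Z) := fun k => Finset.univ.filter (fun χ => ¬ (Ξ χ ∧ k ∈ Rw ι A χ))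
  let T2 : L → Finset (Du Z) := fun j => Finset.univ.filter (fun χ => ¬ Ξ χ ∧ j ∈ Cl ι A χ)
  have hrn := rank_nullity (opT T A) (opT_eqv T A) (U := isoS ι T1) (isoS_inv ι T1)
    (isoS_closed ι T1)
  have h1 : vd (isoS ι T1 ⊓ LinearMap.ker (opT T A : EE G K →ₗ[ℂ] EE G L))
      ≤ vd (LinearMap.ker (opT T A : EE G K →ₗ[ℂ] EE G L)) := vd_mono inf_le_right
  have h2 : vd ((isoS ι T1).map (opT T A : EE G K →ₗ[ℂ] EE G L))
      ≤ vd (isoS ι T2 : Submodule ℂ (EE G L)) := vd_mono (by
    rintro _ ⟨F, hF, rfl⟩ χ j g hχ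
    change pt ι χ (opT T A F) (g, j) = 0
    rw [← opT_pt ι hc T A hT, opT_rc T A hT]
    apply Finset.sum_eq_zero
    intro k _
    by_cases hk : cp ι χ (A k j) = 0
    · exact rc_cp_zero ι hc χ _ (isoP_pt ι χ F k) _ hk _
    · apply rc_zero_left
      funext h
      apply hF χ k h⁻¹
      intro h5
      have h6 : ¬ (Ξ χ ∧ k ∈ Rw ι A χ) := (Finset.mem_filter.1 h5).2
      apply hχ
      apply Finset.mem_filter.2
      refine ⟨Finset.mem_univ _, fun h7 => h6 ⟨h7, (mem_Rw ι A χ k).2 ⟨j, hk⟩⟩,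
        (mem_Cl ι A χ j).2 ⟨k, hk⟩⟩)
  have hT1 : (∑ k : K, (T1 k).card)
      = ∑ χ, (Fintype.card K - if Ξ χ then (Rw ι A χ).card else 0) := by
    rw [count (fun k χ => ¬ (Ξ χ ∧ k ∈ Rw ι A χ))]
    refine Finset.sum_congr rfl fun χ _ => ?_
    have e := Finset.card_filter_add_card_filter_not (s := (Finset.univ : Finset K))
      (fun k => Ξ χ ∧ k ∈ Rw ι A χ)
    rw [Finset.card_univ] at e
    by_cases h : Ξ χ
    · rw [if_pos h]
      have e2 : (Finset.univ.filter (fun k : K => Ξ χ ∧ k ∈ Rw ι A χ)) = Rw ι A χ := by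
        ext k
        simp [h]
      rw [e2] at e
      omega
    · rw [if_neg h]
      have e2 : (Finset.univ.filter (fun k : K => Ξ χ ∧ k ∈ Rw ι A χ)) = ∅ := by
        ext k
        simp [h]
      rw [e2, Finset.card_empty] at e
      omega
  have hT2 : (∑ j : L, (T2 j).card) = ∑ χ, (if Ξ χ then 0 else (Cl ι A χ).card) := by
    rw [count (fun j χ => ¬ Ξ χ ∧ j ∈ Cl ι A χ)]
    refine Finset.sum_congr rfl fun χ _ => ?_
    by_cases h : Ξ χ
    · rw [if_pos h, Finset.card_eq_zero]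
      ext j
      simp [h]
    · rw [if_neg h]
      congr 1
      ext j
      simp [h]
  have hsum : (∑ k : K, (T1 k).card) + ∑ χ, min (Rw ι A χ).card (Cl ι A χ).card
      = Fintype.card K * Fintype.card Z + ∑ j : L, (T2 j).card := by
    rw [hT1, hT2, ← Finset.sum_add_distrib]
    have e : Fintype.card K * Fintype.card Z = ∑ _χ : Du Z, Fintype.card K := by
      rw [Finset.sum_const, Finset.card_univ, card_Du, smul_eq_mul, mul_comm]
    rw [e, ← Finset.sum_add_distrib]
    refine Finset.sum_congr rfl fun χ _ => ?_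
    have hle : (Rw ι A χ).card ≤ Fintype.card K := Finset.card_le_univ _
    by_cases h : Ξ χ
    · rw [if_pos h, if_pos h, min_eq_left h]
      omega
    · have h' : (Cl ι A χ).card ≤ (Rw ι A χ).card := (not_le.1 h).le
      rw [if_neg h, if_neg h, min_eq_right h']
      omega
  have hpos : (0 : ℝ) < Fintype.card Z := Nat.cast_pos.2 Fintype.card_pos
  rw [vd_isoS ι hinj] at hrn
  rw [vd_isoS ι hinj] at h2
  have hs : ((∑ k : K, (T1 k).card : ℕ) : ℝ)
      + ((∑ χ, min (Rw ι A χ).card (Cl ι A χ).card : ℕ) : ℝ)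
      = Fintype.card K * Fintype.card Z + ((∑ j : L, (T2 j).card : ℕ) : ℝ) := by
    exact_mod_cast hsum
  have h4 : ((∑ k : K, (T1 k).card : ℕ) : ℝ) / Fintype.card Z
      ≤ kerDimM A + ((∑ j : L, (T2 j).card : ℕ) : ℝ) / Fintype.card Z := by
    rw [hvd]
    linarith
  have h5 : ((∑ k : K, (T1 k).card : ℕ) : ℝ) / Fintype.card Z
      + ((∑ χ, min (Rw ι A χ).card (Cl ι A χ).card : ℕ) : ℝ) / Fintype.card Z
      = Fintype.card K + ((∑ j : L, (T2 j).card : ℕ) : ℝ) / Fintype.card Z := by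
    rw [← add_div, hs, add_div, mul_div_cancel_right₀ _ hpos.ne']
  linarith

end

end Run7.h623.CS
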