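import Pool.Agent.Run7.h623.Shift

/-! Packing of chains into free capacities, and the largest-parts theorem in finset form. -/

namespace Pool.Agent.Run7.h623

set_option linter.unusedSectionVars false
set_option linter.unusedSimpArgs false

open Finset

section pack
variable {ι : Type*} [DecidableEq ι]

/-- number of the sets `C i`, `i ∈ D`, containing `t` -/
def cnt (D : Finset ι) (C : ι → Finset ℕ) (t : ℕ) : ℕ := (D.filter (fun i => t ∈ C i)).card

/-- the sets `C i`, `i ∈ D`, have the sizes `k i` and respect the capacities `f` on `[0,T)` -/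
def Packs (T : ℕ) (f : ℕ → ℕ) (k : ι → ℕ) (D : Finset ι) (C : ι → Finset ℕ) : Prop :=
  (∀ i ∈ D, C i ⊆ range T) ∧ (∀ i ∈ D, (C i).card = k i) ∧ ∀ t < T, cnt D C t ≤ f t

/-- number of steps with spare capacity -/
def spare (T : ℕ) (f : ℕ → ℕ) (D : Finset ι) (C : ι → Finset ℕ) : ℕ :=
  ((range T).filter (fun t => cnt D C t < f t)).card

theorem spare_le (T : ℕ) (f : ℕ → ℕ) (D : Finset ι) (C : ι → Finset ℕ) : spare T f D C ≤ T := by
  unfold spare
  calc _ ≤ (range T).card := card_filter_le _ _
    _ = T := card_range T

theorem exists_balanced (T : ℕ) (f : ℕ → ℕ) (k : ι → ℕ) (D : Finset ι)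
    (h : ∃ C, Packs T f k D C) :
    ∃ C, Packs T f k D C ∧ ∀ C', Packs T f k D C' → spare T f D C' ≤ spare T f D C := by
  classical
  let P : ℕ → Prop := fun n => ∃ C, Packs T f k D C ∧ T - spare T f D C = n
  have hP : ∃ n, P n := by
    obtain ⟨C, hC⟩ := h
    exact ⟨_, C, hC, rfl⟩
  obtain ⟨C, hC, hn⟩ := Nat.find_spec hP
  refine ⟨C, hC, fun C' hC' => ?_⟩
  have h1 : Nat.find hP ≤ T - spare T f D C' := Nat.find_min' hP ⟨C', hC', rfl⟩
  have h2 := spare_le T f D C
  have h3 := spare_le T f D C'
  omega

theorem cnt_swap (D : Finset ι) (C : ι → Finset ℕ) (i : ι) (hi : i ∈ D) (t t' : ℕ)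
    (ht : t ∉ C i) (ht' : t' ∈ C i) (s : ℕ) :
    cnt D (Function.update C i (insert t ((C i).erase t'))) s + (if s = t' then 1 else 0) =
      cnt D C s + (if s = t then 1 else 0) := by
  have htt : t ≠ t' := fun h => ht (h ▸ ht')
  unfold cnt
  by_cases h1 : s = t'
  · rw [if_pos h1, if_neg (by rw [h1]; exact htt.symm)]
    have : D.filter (fun j => s ∈ Function.update C i (insert t ((C i).erase t')) j) =
        (D.filter (fun j => s ∈ C j)).erase i := by
      ext j
      simp only [mem_filter, mem_erase]
      by_cases hj : j = i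
      · subst hj
        simp only [Function.update_self, mem_insert, mem_erase]
        constructor
        · rintro ⟨_, h | h⟩
          · exact absurd (h1 ▸ h) htt.symm
          · exact absurd h1 h.1
        · rintro ⟨h, _⟩; exact absurd rfl h
      · simp [Function.update_of_ne hj, hj]
    rw [this]
    have him : i ∈ D.filter (fun j => s ∈ C j) := by
      simp only [mem_filter]; exact ⟨hi, h1 ▸ ht'⟩
    rw [card_erase_of_mem him]
    have := card_pos.mpr ⟨i, him⟩
    omega
  · rw [if_neg h1]
    by_cases h2 : s = t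
    · rw [if_pos h2]
      have : D.filter (fun j => s ∈ Function.update C i (insert t ((C i).erase t')) j) =
          insert i (D.filter (fun j => s ∈ C j)) := by
        ext j
        simp only [mem_filter, mem_insert]
        by_cases hj : j = i
        · subst hj
          simp [Function.update_self, h2, hi]
        · simp [Function.update_of_ne hj, hj]
      rw [this, card_insert_of_notMem]
      · simp only [mem_filter, not_and]
        intro _ h; exact ht (h2 ▸ h)
    · rw [if_neg h2]
      have : D.filter (fun j => s ∈ Function.update C i (insert t ((C i).erase t')) j) =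
          D.filter (fun j => s ∈ C j) := by
        apply filter_congr
        intro j _
        by_cases hj : j = i
        · subst hj
          simp only [Function.update_self, mem_insert, mem_erase]
          constructor
          · rintro (h | h)
            · exact absurd h h2
            · exact h.2
          · intro h; exact Or.inr ⟨h1, h⟩
        · rw [Function.update_of_ne hj]
      rw [this]

theorem packs_swap {T : ℕ} {f : ℕ → ℕ} {k : ι → ℕ} {D : Finset ι} {C : ι → Finset ℕ}
    (h : Packs T f k D C) (i : ι) (hi : i ∈ D) (t t' : ℕ) (htT : t < T)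
    (ht : t ∉ C i) (ht' : t' ∈ C i) (hc : cnt D C t < f t) :
    Packs T f k D (Function.update C i (insert t ((C i).erase t'))) := by
  refine ⟨?_, ?_, ?_⟩
  · intro j hj
    by_cases hji : j = i
    · subst hji
      rw [Function.update_self]
      intro x hx
      rcases mem_insert.mp hx with h1 | h1
      · rw [h1]; exact mem_range.mpr htT
      · exact h.1 j hj (mem_of_mem_erase h1)
    · rw [Function.update_of_ne hji]; exact h.1 j hj
  · intro j hj
    by_cases hji : j = i
    · subst hji
      rw [Function.update_self, card_insert_of_notMem, card_erase_of_mem ht', h.2.1 j hj]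
      · have := card_pos.mpr ⟨t', ht'⟩
        rw [h.2.1 j hj] at this
        omega
      · intro h1; exact ht (mem_of_mem_erase h1)
    · rw [Function.update_of_ne hji]; exact h.2.1 j hj
  · intro s hs
    have e := cnt_swap D C i hi t t' ht ht' s
    have e2 := h.2.2 s hs
    by_cases h1 : s = t
    · rw [if_pos h1] at e
      rw [h1] at e e2 ⊢
      have htt : t ≠ t' := fun h => ht (h ▸ ht')
      rw [if_neg htt] at e
      omega
    · rw [if_neg h1] at e
      omega

theorem spare_swap {T : ℕ} {f : ℕ → ℕ} {k : ι → ℕ} {D : Finset ι} {C : ι → Finset ℕ}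
    (h : Packs T f k D C) (i : ι) (hi : i ∈ D) (t t' : ℕ)
    (ht : t ∉ C i) (ht' : t' ∈ C i) (hc : cnt D C t + 2 ≤ f t) (hc' : f t' ≤ cnt D C t') :
    spare T f D C < spare T f D (Function.update C i (insert t ((C i).erase t'))) := by
  have ht'T : t' < T := mem_range.mp (h.1 i hi ht')
  have htt : t ≠ t' := fun h => ht (h ▸ ht')
  have e := cnt_swap D C i hi t t' ht ht'
  apply card_lt_card
  rw [ssubset_iff_of_subset]
  · refine ⟨t', ?_, ?_⟩
    · simp only [mem_filter, mem_range]
      refine ⟨ht'T, ?_⟩
      have e1 := e t'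
      rw [if_pos rfl, if_neg htt.symm] at e1
      have e2 := h.2.2 t' ht'T
      omega
    · simp only [mem_filter, not_and]
      intro _; omega
  · intro s hs
    simp only [mem_filter] at hs ⊢
    refine ⟨hs.1, ?_⟩
    have e1 := e s
    by_cases h1 : s = t
    · rw [if_pos h1] at e1
      rw [h1] at e1 ⊢
      rw [if_neg htt] at e1
      omega
    · rw [if_neg h1] at e1
      have := hs.2
      omega

theorem sum_cnt (T : ℕ) (f : ℕ → ℕ) (k : ι → ℕ) (D : Finset ι) (C : ι → Finset ℕ)
    (h : Packs T f k D C) : ∑ t ∈ range T, cnt D C t = ∑ i ∈ D, k i := by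
  unfold cnt
  simp only [card_filter]
  rw [sum_comm]
  apply sum_congr rfl
  intro i hi
  rw [← h.2.1 i hi, ← card_filter]
  congr 1
  ext t
  simp only [mem_filter, mem_range]
  constructor
  · exact fun h => h.2
  · intro h1; exact ⟨mem_range.mp (h.1 i hi h1), h1⟩

/-- Packing lemma. -/
theorem pack (T : ℕ) (f : ℕ → ℕ) (k : ι → ℕ) (D₀ : Finset ι) (hf : ∀ t < T, f t ≤ D₀.card + 1)
    (h₀ : ∃ C, Packs T f k D₀ C) (E : Finset ι) :
    (∀ e ∈ E, e ∉ D₀) → (∀ e ∈ E, ∀ d ∈ D₀, k e ≤ k d) →
    ∑ i ∈ D₀ ∪ E, k i ≤ ∑ t ∈ range T, f t → ∃ C, Packs T f k (D₀ ∪ E) C := by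
  induction E using Finset.induction_on with
  | empty => intro _ _ _; simpa using h₀
  | insert e E he ih =>
    intro hE hk hsum
    have heD : e ∉ D₀ := hE e (mem_insert_self e E)
    have heDE : e ∉ D₀ ∪ E := by simp [heD, he]
    have hun : D₀ ∪ insert e E = insert e (D₀ ∪ E) := by
      ext x; simp only [mem_union, mem_insert]; tauto
    rw [hun, sum_insert heDE] at hsum
    obtain ⟨C, hC, hmax⟩ := exists_balanced T f k (D₀ ∪ E) (ih
      (fun x hx => hE x (mem_insert_of_mem hx)) (fun x hx => hk x (mem_insert_of_mem hx)) (by omega))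
    have key : k e ≤ spare T f (D₀ ∪ E) C := by
      by_cases hex : ∃ t < T, cnt (D₀ ∪ E) C t + 2 ≤ f t
      · obtain ⟨t, htT, ht⟩ := hex
        have hd : ∃ d ∈ D₀, t ∉ C d := by
          by_contra hcon
          push Not at hcon
          have h1 : D₀ ⊆ (D₀ ∪ E).filter (fun i => t ∈ C i) := by
            intro d hd
            simp only [mem_filter, mem_union]
            exact ⟨Or.inl hd, hcon d hd⟩
          have h2 := card_le_card h1
          have h3 := hf t htT
          unfold cnt at ht
          omega
        obtain ⟨d, hd, htd⟩ := hd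
        have hdD : d ∈ D₀ ∪ E := mem_union_left _ hd
        have h1 : C d ⊆ (range T).filter (fun t => cnt (D₀ ∪ E) C t < f t) := by
          intro t' ht'
          simp only [mem_filter]
          refine ⟨hC.1 d hdD ht', ?_⟩
          by_contra hcon
          have h2 := spare_swap hC d hdD t t' htd ht' ht (by omega)
          have h3 := hmax _ (packs_swap hC d hdD t t' htT htd ht' (by omega))
          omega
        have h2 := card_le_card h1
        rw [hC.2.1 d hdD] at h2
        have h3 := hk e (mem_insert_self e E) d hd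
        unfold spare
        omega
      · push Not at hex
        have h1 : ∑ t ∈ range T, f t ≤ ∑ t ∈ range T, cnt (D₀ ∪ E) C t + spare T f (D₀ ∪ E) C := by
          unfold spare
          rw [card_filter, ← sum_add_distrib]
          apply sum_le_sum
          intro t ht
          have h2 := hex t (mem_range.mp ht)
          have h3 := hC.2.2 t (mem_range.mp ht)
          split_ifs with h4 <;> omega
        rw [sum_cnt T f k _ C hC] at h1
        omega
    obtain ⟨B, hB, hBc⟩ := exists_subset_card_eq key
    refine ⟨Function.update C e B, ?_, ?_, ?_⟩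
    · intro i hi
      rw [hun] at hi
      by_cases hie : i = e
      · subst hie
        rw [Function.update_self]
        exact hB.trans (filter_subset _ _)
      · rw [Function.update_of_ne hie]
        exact hC.1 i ((mem_insert.mp hi).resolve_left hie)
    · intro i hi
      rw [hun] at hi
      by_cases hie : i = e
      · subst hie
        rw [Function.update_self]
        exact hBc
      · rw [Function.update_of_ne hie]
        exact hC.2.1 i ((mem_insert.mp hi).resolve_left hie)
    · intro t ht
      rw [hun]
      have hfe : (D₀ ∪ E).filter (fun i => t ∈ Function.update C e B i) =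
          (D₀ ∪ E).filter (fun i => t ∈ C i) := by
        apply filter_congr
        intro i hi
        rw [Function.update_of_ne]
        rintro rfl; exact heDE hi
      unfold cnt
      rw [filter_insert, Function.update_self]
      split_ifs with h1
      · rw [card_insert_of_notMem (by simp only [mem_filter, not_and]; intro h; exact absurd h heDE), hfe]
        have := (mem_filter.mp (hB h1)).2
        unfold cnt at this
        omega
      · rw [hfe]
        exact hC.2.2 t ht

end pack

section main
variable {J : Type*} [Fintype J] [PartialOrder J] [DecidableEq J] {ι : Type*} [DecidableEq ι]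

/-- the jobs of part `i` -/
def part (c : J → ι) (i : ι) : Finset J := univ.filter (fun j => c j = i)

theorem mem_part (c : J → ι) (i : ι) (j : J) : j ∈ part c i ↔ c j = i := by
  simp [part]

/-- valid schedule of the parts in `D` -/
def Valid (m : ℕ → ℕ) (T : ℕ) (c : J → ι) (D : Finset ι) (S : J → ℕ) : Prop :=
  (∀ i ∈ D, Feas (part c i) S T) ∧ ∀ t, ∑ i ∈ D, U (part c i) S t ≤ m t

/-- total number of empty steps of the parts in `D` -/
def holes (T : ℕ) (c : J → ι) (D : Finset ι) (S : J → ℕ) : ℕ :=
  ∑ i ∈ D, ((range T).filter (fun z => U (part c i) S z = 0)).card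

theorem U_congr (A : Finset J) (S S' : J → ℕ) (h : ∀ j ∈ A, S' j = S j) (t : ℕ) :
    U A S' t = U A S t := by
  unfold U
  congr 1
  apply filter_congr
  intro j hj
  rw [h j hj]

theorem exists_min_holes (m : ℕ → ℕ) (T : ℕ) (c : J → ι) (D : Finset ι) (h : ∃ S, Valid m T c D S) :
    ∃ S, Valid m T c D S ∧ ∀ S', Valid m T c D S' → holes T c D S ≤ holes T c D S' := by
  classical
  let P : ℕ → Prop := fun n => ∃ S, Valid m T c D S ∧ holes T c D S = n
  have hP : ∃ n, P n := by
    obtain ⟨S, hS⟩ := h
    exact ⟨_, S, hS, rfl⟩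
  obtain ⟨S, hS, hn⟩ := Nat.find_spec hP
  refine ⟨S, hS, fun S' hS' => ?_⟩
  rw [hn]
  exact Nat.find_min' hP ⟨S', hS', rfl⟩

theorem full_of_hole (m : ℕ → ℕ) (T : ℕ) (c : J → ι) (D : Finset ι) (S : J → ℕ) (hS : Valid m T c D S)
    (hmin : ∀ S', Valid m T c D S' → holes T c D S ≤ holes T c D S')
    (i : ι) (hi : i ∈ D) (hm : ∃ t, 2 ≤ U (part c i) S t) (z : ℕ) (hz : z < T)
    (h0 : U (part c i) S z = 0) : m z ≤ ∑ i ∈ D, U (part c i) S z := by
  by_contra hcon
  push Not at hcon
  obtain ⟨S', t', h1, h2, h3, h4, h5⟩ := shift (part c i) T z S (hS.1 i hi) hz h0 hm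
  have hother : ∀ l, l ≠ i → ∀ j ∈ part c l, S' j = S j := by
    intro l hl j hj
    apply h4
    rw [mem_part] at hj ⊢
    rw [hj]; exact hl
  have hsum : ∀ t, ∑ l ∈ D, U (part c l) S' t + (if t = t' then 1 else 0) =
      ∑ l ∈ D, U (part c l) S t + (if t = z then 1 else 0) := by
    intro t
    rw [← add_sum_erase D _ hi, ← add_sum_erase D (fun l => U (part c l) S t) hi]
    have e1 : ∑ l ∈ D.erase i, U (part c l) S' t = ∑ l ∈ D.erase i, U (part c l) S t := by
      apply sum_congr rfl
      intro l hl
      exact U_congr _ _ _ (hother l (ne_of_mem_erase hl)) t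
    have e2 := h5 t
    rw [e1]
    omega
  have hval : Valid m T c D S' := by
    refine ⟨?_, ?_⟩
    · intro l hl
      by_cases hli : l = i
      · rw [hli]; exact h1
      · have h6 := hS.1 l hl
        have h7 := hother l hli
        refine ⟨?_, ?_⟩
        · intro a ha b hb hab
          rw [h7 a ha, h7 b hb]
          exact h6.1 a ha b hb hab
        · intro a ha
          rw [h7 a ha]; exact h6.2 a ha
    · intro t
      have e1 := hsum t
      have e2 := hS.2 t
      by_cases htz : t = z
      · rw [if_pos htz] at e1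
        rw [htz] at e1 e2 ⊢
        omega
      · rw [if_neg htz] at e1
        omega
  have hlt : holes T c D S' < holes T c D S := by
    unfold holes
    apply sum_lt_sum
    · intro l hl
      by_cases hli : l = i
      · subst hli
        apply card_le_card
        intro t ht
        simp only [mem_filter] at ht ⊢
        refine ⟨ht.1, ?_⟩
        have e1 := h5 t
        rw [ht.2] at e1
        by_cases htt : t = t'
        · rw [if_pos htt] at e1
          rw [htt] at e1
          omega
        · rw [if_neg htt] at e1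
          omega
      · have : (range T).filter (fun z => U (part c l) S' z = 0) =
            (range T).filter (fun z => U (part c l) S z = 0) := by
          apply filter_congr
          intro t _
          rw [U_congr _ _ _ (hother l hli) t]
        rw [this]
    · refine ⟨i, hi, ?_⟩
      apply card_lt_card
      rw [ssubset_iff_of_subset]
      · refine ⟨z, ?_, ?_⟩
        · simp only [mem_filter, mem_range]; exact ⟨hz, h0⟩
        · simp only [mem_filter, not_and]
          intro _ h6
          have e1 := h5 z
          rw [if_pos rfl, if_neg h2.symm] at e1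
          omega
      · intro t ht
        simp only [mem_filter] at ht ⊢
        refine ⟨ht.1, ?_⟩
        have e1 := h5 t
        rw [ht.2] at e1
        by_cases htt : t = t'
        · rw [if_pos htt] at e1
          rw [htt] at e1
          omega
        · rw [if_neg htt] at e1
          omega
  have := hmin S' hval
  omega

theorem sum_U (A : Finset J) (S : J → ℕ) (T : ℕ) (h : ∀ a ∈ A, S a < T) :
    ∑ t ∈ range T, U A S t = A.card := by
  unfold U
  exact (card_eq_sum_card_fiberwise (fun a ha => mem_range.mpr (h a ha))).symm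

/-- The largest-parts theorem in finset form. -/
theorem largest_parts (m : ℕ → ℕ) (T : ℕ) (c : J → ι) (hc : ∀ a b, a < b → c a = c b)
    (D : Finset ι) (hD : ∀ t < T, m t ≤ D.card + 1)
    (hbig : ∀ i ∈ D, ∀ k, k ∉ D → (part c k).card ≤ (part c i).card)
    (hn : Fintype.card J ≤ ∑ t ∈ range T, m t) (h : ∃ S, Valid m T c D S) :
    ∃ S : J → ℕ, (∀ t, (univ.filter (fun j => S j = t)).card ≤ m t) ∧
      (∀ a b, a < b → S a < S b) ∧ ∀ j, S j < T := by
  classical
  obtain ⟨S, hS, hmin⟩ := exists_min_holes m T c D h
  let O := D.filter (fun i => ∃ t, 2 ≤ U (part c i) S t)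
  let D₀ := D.filter (fun i => ¬ ∃ t, 2 ≤ U (part c i) S t)
  let E := (univ.image c) \ D
  let k : ι → ℕ := fun i => (part c i).card
  let rO : ℕ → ℕ := fun t => ∑ i ∈ O, U (part c i) S t
  let f : ℕ → ℕ := fun t => m t - rO t
  have hOD : O ⊆ D := filter_subset _ _
  have hD₀D : D₀ ⊆ D := filter_subset _ _
  have hcardD : O.card + D₀.card = D.card := card_filter_add_card_filter_not _
  have hsplit : ∀ g : ι → ℕ, ∑ i ∈ O, g i + ∑ i ∈ D₀, g i = ∑ i ∈ D, g i :=
    fun g => sum_filter_add_sum_filter_not D _ g
  have hU1 : ∀ i ∈ D₀, ∀ t, U (part c i) S t ≤ 1 := by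
    intro i hi t
    have := (mem_filter.mp hi).2
    push Not at this
    have := this t
    omega
  have hrm : ∀ t, rO t ≤ m t := by
    intro t
    have h1 := hsplit (fun i => U (part c i) S t)
    have h2 := hS.2 t
    have h3 : rO t = ∑ i ∈ O, U (part c i) S t := rfl
    omega
  have hf : ∀ t < T, f t ≤ D₀.card + 1 := by
    intro t ht
    have h1 := hsplit (fun i => U (part c i) S t)
    have h3 : rO t = ∑ i ∈ O, U (part c i) S t := rfl
    have h4 : ∑ i ∈ D₀, U (part c i) S t ≤ D₀.card := by
      calc _ ≤ ∑ i ∈ D₀, 1 := sum_le_sum (fun i hi => hU1 i hi t)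
        _ = D₀.card := by simp
    by_cases hall : ∀ i ∈ O, 1 ≤ U (part c i) S t
    · have h5 : O.card ≤ rO t := by
        calc O.card = ∑ i ∈ O, 1 := by simp
          _ ≤ _ := sum_le_sum hall
      have hDt := hD t ht
      show m t - rO t ≤ D₀.card + 1
      omega
    · push Not at hall
      obtain ⟨i, hi, hi0⟩ := hall
      have h5 := full_of_hole m T c D S hS hmin i (hOD hi) (mem_filter.mp hi).2 t ht (by omega)
      have hDt := hD t ht
      show m t - rO t ≤ D₀.card + 1
      omega
  have hmemC : ∀ i ∈ D₀, ∀ t, (if t ∈ (part c i).image S then 1 else 0) = U (part c i) S t := by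
    intro i hi t
    have h1 := hU1 i hi t
    by_cases h2 : t ∈ (part c i).image S
    · rw [if_pos h2]
      obtain ⟨j, hj, hjt⟩ := mem_image.mp h2
      have : 0 < U (part c i) S t := card_pos.mpr ⟨j, mem_filter.mpr ⟨hj, hjt⟩⟩
      omega
    · rw [if_neg h2]
      by_contra h3
      obtain ⟨x, hx, hxt⟩ := exists_mem_of_U_pos (part c i) S t (by omega)
      exact h2 (mem_image.mpr ⟨x, hx, hxt⟩)
  have h₀ : ∃ C, Packs T f k D₀ C := by
    refine ⟨fun i => (part c i).image S, ?_, ?_, ?_⟩
    · intro i hi t ht
      obtain ⟨j, hj, hjt⟩ := mem_image.mp ht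
      rw [← hjt]
      exact mem_range.mpr ((hS.1 i (hD₀D hi)).2 j hj)
    · intro i hi
      apply card_image_of_injOn
      intro a ha b hb hab
      have h1 := hU1 i hi (S a)
      unfold U at h1
      rw [card_le_one] at h1
      exact h1 a (mem_filter.mpr ⟨ha, rfl⟩) b (mem_filter.mpr ⟨hb, hab.symm⟩)
    · intro t ht
      unfold cnt
      rw [card_filter, sum_congr rfl (fun i hi => hmemC i hi t)]
      have h1 := hsplit (fun i => U (part c i) S t)
      have h2 := hS.2 t
      have h3 : rO t = ∑ i ∈ O, U (part c i) S t := rfl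
      show _ ≤ m t - rO t
      omega
  have hcover : ∀ j : J, c j ∈ O ∪ (D₀ ∪ E) := by
    intro j
    by_cases h1 : c j ∈ D
    · by_cases h2 : ∃ t, 2 ≤ U (part c (c j)) S t
      · exact mem_union_left _ (mem_filter.mpr ⟨h1, h2⟩)
      · exact mem_union_right _ (mem_union_left _ (mem_filter.mpr ⟨h1, h2⟩))
    · exact mem_union_right _ (mem_union_right _ (mem_sdiff.mpr ⟨mem_image_of_mem c (mem_univ j), h1⟩))
  have hdisj : Disjoint O (D₀ ∪ E) := by
    rw [disjoint_left]
    intro i hi hi2
    rcases mem_union.mp hi2 with h1 | h1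
    · exact (mem_filter.mp h1).2 (mem_filter.mp hi).2
    · exact (mem_sdiff.mp h1).2 (hOD hi)
  have htotal : Fintype.card J = ∑ i ∈ O, k i + ∑ i ∈ D₀ ∪ E, k i := by
    rw [← sum_union hdisj, ← card_univ]
    exact card_eq_sum_card_fiberwise (fun j _ => hcover j)
  have hrsum : ∑ t ∈ range T, rO t = ∑ i ∈ O, k i := by
    rw [sum_comm]
    apply sum_congr rfl
    intro i hi
    exact sum_U _ _ _ (hS.1 i (hOD hi)).2
  have hfsum : ∑ t ∈ range T, f t + ∑ t ∈ range T, rO t = ∑ t ∈ range T, m t := by
    rw [← sum_add_distrib, sum_congr rfl (fun t _ => Nat.sub_add_cancel (hrm t))]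
  obtain ⟨C, hC⟩ := pack T f k D₀ hf h₀ E
    (fun e he h1 => (mem_sdiff.mp he).2 (hD₀D h1))
    (fun e he d hd => hbig d (hD₀D hd) e (mem_sdiff.mp he).2) (by omega)
  have hσ : ∀ i, ∃ σ : J → ℕ, i ∈ D₀ ∪ E → (∀ a ∈ part c i, σ a ∈ C i) ∧
      (∀ a ∈ part c i, ∀ b ∈ part c i, σ a = σ b → a = b) ∧
      ∀ a ∈ part c i, ∀ b ∈ part c i, a < b → σ a < σ b := by
    intro i
    by_cases hi : i ∈ D₀ ∪ E
    · obtain ⟨σ, hσ⟩ := chain_schedule (k i) (part c i) (C i) rfl (hC.2.1 i hi)
      exact ⟨σ, fun _ => hσ⟩
    · exact ⟨fun _ => 0, fun h => absurd h hi⟩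
  choose σ hσ using hσ
  let R : J → ℕ := fun j => if c j ∈ O then S j else σ (c j) j
  have hRO : ∀ i ∈ O, ∀ j ∈ part c i, R j = S j := by
    intro i hi j hj
    rw [mem_part] at hj
    show (if c j ∈ O then S j else σ (c j) j) = S j
    rw [if_pos (hj ▸ hi)]
  have hRE : ∀ i ∈ D₀ ∪ E, ∀ j ∈ part c i, R j = σ i j := by
    intro i hi j hj
    rw [mem_part] at hj
    show (if c j ∈ O then S j else σ (c j) j) = σ i j
    rw [if_neg (by rw [hj]; exact fun h => disjoint_left.mp hdisj h hi), hj]
  have hRT : ∀ j, R j < T := by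
    intro j
    rcases mem_union.mp (hcover j) with h1 | h1
    · rw [hRO (c j) h1 j ((mem_part c _ j).mpr rfl)]
      exact (hS.1 (c j) (hOD h1)).2 j ((mem_part c _ j).mpr rfl)
    · rw [hRE (c j) h1 j ((mem_part c _ j).mpr rfl)]
      exact mem_range.mp (hC.1 _ h1 ((hσ (c j) h1).1 j ((mem_part c _ j).mpr rfl)))
  refine ⟨R, ?_, ?_, hRT⟩
  · intro t
    by_cases htT : t < T
    · have h1 : (univ.filter (fun j => R j = t)).card = ∑ i ∈ O ∪ (D₀ ∪ E), U (part c i) R t := by
        rw [card_eq_sum_card_fiberwise (fun j _ => hcover j)]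
        apply sum_congr rfl
        intro i _
        unfold U part
        congr 1
        ext j
        simp only [mem_filter, mem_univ, true_and]
        exact and_comm
      rw [h1, sum_union hdisj]
      have h2 : ∑ i ∈ O, U (part c i) R t = rO t :=
        sum_congr rfl (fun i hi => U_congr _ _ _ (hRO i hi) t)
      have h3 : ∑ i ∈ D₀ ∪ E, U (part c i) R t ≤ f t := by
        refine le_trans ?_ (hC.2.2 t htT)
        unfold cnt
        rw [card_filter]
        apply sum_le_sum
        intro i hi
        have hh := hσ i hi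
        have h4 : U (part c i) R t ≤ 1 := by
          unfold U
          rw [card_le_one]
          intro a ha b hb
          rw [mem_filter] at ha hb
          rw [hRE i hi a ha.1] at ha
          rw [hRE i hi b hb.1] at hb
          exact hh.2.1 a ha.1 b hb.1 (by rw [ha.2, hb.2])
        split_ifs with h5
        · exact h4
        · by_contra h6
          obtain ⟨x, hx, hxt⟩ := exists_mem_of_U_pos (part c i) R t (by omega)
          apply h5
          rw [hRE i hi x hx] at hxt
          rw [← hxt]
          exact hh.1 x hx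
      have h4 : f t = m t - rO t := rfl
      have h5 := hrm t
      omega
    · have : univ.filter (fun j => R j = t) = ∅ := by
        apply filter_eq_empty_iff.mpr
        intro j _ h1
        have := hRT j
        omega
      rw [this]; simp
  · intro a b hab
    have hcab := hc a b hab
    rcases mem_union.mp (hcover b) with h1 | h1
    · rw [hRO (c b) h1 a ((mem_part c _ a).mpr hcab), hRO (c b) h1 b ((mem_part c _ b).mpr rfl)]
      exact (hS.1 (c b) (hOD h1)).1 a ((mem_part c _ a).mpr hcab) b ((mem_part c _ b).mpr rfl) hab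
    · rw [hRE (c b) h1 a ((mem_part c _ a).mpr hcab), hRE (c b) h1 b ((mem_part c _ b).mpr rfl)]
      exact (hσ (c b) h1).2.2 a ((mem_part c _ a).mpr hcab) b ((mem_part c _ b).mpr rfl) hab

end main

end Pool.Agent.Run7.h623
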