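import Mathlib

/-! Unit shifts inside one part of a precedence order, and packing of chains around a schedule. -/

namespace Pool.Agent.Run7.h623

set_option linter.unusedSectionVars false
set_option linter.unusedSimpArgs false

open Finset

/-- number of jobs of `A` started at `t` -/
def U {J : Type*} (A : Finset J) (S : J → ℕ) (t : ℕ) : ℕ := (A.filter (fun j => S j = t)).card

/-- `S` respects the order on `A` and finishes before `T` -/
def Feas {J : Type*} [PartialOrder J] (A : Finset J) (S : J → ℕ) (T : ℕ) : Prop :=
  (∀ a ∈ A, ∀ b ∈ A, a < b → S a < S b) ∧ ∀ a ∈ A, S a < T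

section
variable {J : Type*} [PartialOrder J] [DecidableEq J]

theorem U_update (A : Finset J) (S : J → ℕ) (x : J) (hx : x ∈ A) (z : ℕ) (hz : S x ≠ z) (t : ℕ) :
    U A (Function.update S x z) t + (if t = S x then 1 else 0) = U A S t + (if t = z then 1 else 0) := by
  unfold U
  by_cases h1 : t = S x
  · have h2 : t ≠ z := by rw [h1]; exact hz
    have : A.filter (fun j => Function.update S x z j = t) = (A.filter (fun j => S j = t)).erase x := by
      ext j
      simp only [mem_filter, mem_erase]
      by_cases hj : j = x
      · subst hj
        simp only [Function.update_self]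
        constructor
        · rintro ⟨_, h⟩; exact absurd h.symm h2
        · rintro ⟨h, _⟩; exact absurd rfl h
      · simp [Function.update_of_ne hj, hj]
    rw [this, if_pos h1, if_neg h2]
    have hxm : x ∈ A.filter (fun j => S j = t) := by simp [hx, h1]
    rw [card_erase_of_mem hxm]
    have := card_pos.mpr ⟨x, hxm⟩
    omega
  · rw [if_neg h1]
    by_cases h2 : t = z
    · have : A.filter (fun j => Function.update S x z j = t) = insert x (A.filter (fun j => S j = t)) := by
        ext j
        simp only [mem_filter, mem_insert]
        by_cases hj : j = x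
        · subst hj
          simp [Function.update_self, h2, hx]
        · simp [Function.update_of_ne hj, hj]
      rw [this, if_pos h2, card_insert_of_notMem]
      · simp only [mem_filter, not_and]
        intro _ h; exact h1 h.symm
    · rw [if_neg h2]
      have : A.filter (fun j => Function.update S x z j = t) = A.filter (fun j => S j = t) := by
        apply filter_congr
        intro j _
        by_cases hj : j = x
        · subst hj
          simp only [Function.update_self]
          constructor
          · intro h; exact absurd h.symm h2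
          · intro h; exact absurd h.symm h1
        · rw [Function.update_of_ne hj]
      rw [this]

theorem exists_mem_of_U_pos (A : Finset J) (S : J → ℕ) (t : ℕ) (h : 0 < U A S t) :
    ∃ x ∈ A, S x = t := by
  obtain ⟨x, hx⟩ := card_pos.mp h
  simp only [mem_filter] at hx
  exact ⟨x, hx.1, hx.2⟩

theorem U_zero (A : Finset J) (S : J → ℕ) (t : ℕ) (h : U A S t = 0) (x : J) (hx : x ∈ A) : S x ≠ t := by
  intro he
  have : x ∈ A.filter (fun j => S j = t) := by simp [hx, he]
  have := card_pos.mpr ⟨x, this⟩
  unfold U at h
  omega

/-- elementary move to the right -/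
theorem feas_move_right (A : Finset J) (S : J → ℕ) (T z : ℕ) (hS : Feas A S T) (x : J) (hx : x ∈ A)
    (hz : z < T) (hxz : S x < z) (hempty : ∀ t, S x < t → t ≤ z → U A S t = 0) :
    Feas A (Function.update S x z) T := by
  refine ⟨?_, ?_⟩
  · intro a ha b hb hab
    by_cases h1 : a = x
    · subst h1
      have hbx : b ≠ a := fun h => by subst h; exact lt_irrefl _ hab
      rw [Function.update_self, Function.update_of_ne hbx]
      have h2 := hS.1 a ha b hb hab
      by_contra h3
      have := hempty (S b) h2 (by omega)
      exact U_zero A S _ this b hb rfl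
    · rw [Function.update_of_ne h1]
      by_cases h2 : b = x
      · subst h2
        rw [Function.update_self]
        have := hS.1 a ha b hb hab
        omega
      · rw [Function.update_of_ne h2]
        exact hS.1 a ha b hb hab
  · intro a ha
    by_cases h1 : a = x
    · subst h1; rw [Function.update_self]; exact hz
    · rw [Function.update_of_ne h1]; exact hS.2 a ha

/-- elementary move to the left -/
theorem feas_move_left (A : Finset J) (S : J → ℕ) (T z : ℕ) (hS : Feas A S T) (x : J) (hx : x ∈ A)
    (hz : z < T) (hxz : z < S x) (hempty : ∀ t, z ≤ t → t < S x → U A S t = 0) :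
    Feas A (Function.update S x z) T := by
  refine ⟨?_, ?_⟩
  · intro a ha b hb hab
    by_cases h1 : b = x
    · subst h1
      have hbx : a ≠ b := fun h => by subst h; exact lt_irrefl _ hab
      rw [Function.update_self, Function.update_of_ne hbx]
      have h2 := hS.1 a ha b hb hab
      by_contra h3
      have := hempty (S a) (by omega) h2
      exact U_zero A S _ this a ha rfl
    · rw [Function.update_of_ne h1]
      by_cases h2 : a = x
      · subst h2
        rw [Function.update_self]
        have := hS.1 a ha b hb hab
        omega
      · rw [Function.update_of_ne h2]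
        exact hS.1 a ha b hb hab
  · intro a ha
    by_cases h1 : a = x
    · subst h1; rw [Function.update_self]; exact hz
    · rw [Function.update_of_ne h1]; exact hS.2 a ha

/-- Filling an empty step `z` from a multiple step on its left. -/
theorem shift_left (A : Finset J) (T : ℕ) : ∀ (z : ℕ) (S : J → ℕ), Feas A S T → z < T →
    U A S z = 0 → (∃ t, t < z ∧ 2 ≤ U A S t) →
    ∃ (S' : J → ℕ) (t' : ℕ), Feas A S' T ∧ t' < z ∧ 2 ≤ U A S t' ∧ (∀ j, j ∉ A → S' j = S j) ∧
      ∀ t, U A S' t + (if t = t' then 1 else 0) = U A S t + (if t = z then 1 else 0) := by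
  intro z
  induction z using Nat.strong_induction_on with
  | _ z ih =>
  intro S hS hz hUz ⟨t, htz, ht⟩
  -- the last nonempty step before z
  classical
  let F := (range z).filter (fun s => 0 < U A S s)
  have hF : F.Nonempty := ⟨t, by simp only [F, mem_filter, mem_range]; exact ⟨htz, by omega⟩⟩
  let s := F.max' hF
  have hsF : s ∈ F := F.max'_mem hF
  have hs : s < z ∧ 0 < U A S s := by simpa only [F, mem_filter, mem_range] using hsF
  have hmax : ∀ r, s < r → r ≤ z → U A S r = 0 := by
    intro r hr hrz
    rcases Nat.lt_or_ge r z with h | h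
    · by_contra hne
      have hrF : r ∈ F := by
        simp only [F, mem_filter, mem_range]; exact ⟨h, by omega⟩
      have := F.le_max' r hrF
      have hh : r ≤ s := this
      omega
    · have : r = z := by omega
      rw [this]; exact hUz
  have hts : t ≤ s := by
    apply F.le_max'
    simp only [F, mem_filter, mem_range]; exact ⟨htz, by omega⟩
  obtain ⟨x, hxA, hxs⟩ := exists_mem_of_U_pos A S s hs.2
  have hmove : Feas A (Function.update S x z) T :=
    feas_move_right A S T z hS x hxA hz (by omega) (by rw [hxs]; exact hmax)
  have hU := U_update A S x hxA z (by omega)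
  rw [hxs] at hU
  have hout : ∀ j, j ∉ A → Function.update S x z j = S j := by
    intro j hj
    apply Function.update_of_ne
    rintro rfl; exact hj hxA
  rcases Nat.lt_or_ge (U A S s) 2 with h2 | h2
  · -- single step: recurse
    have hUs : U A S s = 1 := by omega
    have hts' : t < s := by
      rcases Nat.lt_or_ge t s with h | h
      · exact h
      · have : t = s := by omega
        rw [this] at ht; omega
    have e1 := hU s
    rw [if_pos rfl, if_neg (by omega : s ≠ z)] at e1
    have e2 := hU t
    rw [if_neg (by omega : t ≠ s), if_neg (by omega : t ≠ z)] at e2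
    obtain ⟨S', t', h1, h2', h3, h4, h5⟩ := ih s hs.1 (Function.update S x z) hmove (by omega)
      (by omega) ⟨t, hts', by omega⟩
    refine ⟨S', t', h1, by omega, ?_, ?_, ?_⟩
    · have e3 := hU t'
      rw [if_neg (by omega : t' ≠ s), if_neg (by omega : t' ≠ z)] at e3
      omega
    · intro j hj; rw [h4 j hj, hout j hj]
    · intro r
      have e4 := h5 r
      have e5 := hU r
      omega
  · refine ⟨Function.update S x z, s, hmove, hs.1, h2, hout, ?_⟩
    intro r
    exact hU r

/-- Filling an empty step `z` from a multiple step on its right. -/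
theorem shift_right (A : Finset J) (T : ℕ) : ∀ (d z : ℕ) (S : J → ℕ), T - z = d → Feas A S T → z < T →
    U A S z = 0 → (∃ t, z < t ∧ 2 ≤ U A S t) →
    ∃ (S' : J → ℕ) (t' : ℕ), Feas A S' T ∧ z < t' ∧ 2 ≤ U A S t' ∧ (∀ j, j ∉ A → S' j = S j) ∧
      ∀ t, U A S' t + (if t = t' then 1 else 0) = U A S t + (if t = z then 1 else 0) := by
  intro d
  induction d using Nat.strong_induction_on with
  | _ d ih =>
  intro z S hd hS hz hUz ⟨t, htz, ht⟩
  classical
  have htT : t < T := by
    obtain ⟨x, hxA, hxs⟩ := exists_mem_of_U_pos A S t (by omega)
    have := hS.2 x hxA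
    omega
  let F := (range T).filter (fun s => z < s ∧ 0 < U A S s)
  have hF : F.Nonempty := ⟨t, by simp only [F, mem_filter, mem_range]; exact ⟨htT, htz, by omega⟩⟩
  let s := F.min' hF
  have hsF : s ∈ F := F.min'_mem hF
  have hs : s < T ∧ z < s ∧ 0 < U A S s := by simpa only [F, mem_filter, mem_range] using hsF
  have hmin : ∀ r, z ≤ r → r < s → U A S r = 0 := by
    intro r hr hrz
    rcases Nat.lt_or_ge z r with h | h
    · by_contra hne
      have hrF : r ∈ F := by
        simp only [F, mem_filter, mem_range]; exact ⟨by omega, h, by omega⟩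
      have := F.min'_le r hrF
      have hh : s ≤ r := this
      omega
    · have : r = z := by omega
      rw [this]; exact hUz
  have hts : s ≤ t := by
    apply F.min'_le
    simp only [F, mem_filter, mem_range]; exact ⟨htT, htz, by omega⟩
  obtain ⟨x, hxA, hxs⟩ := exists_mem_of_U_pos A S s hs.2.2
  have hmove : Feas A (Function.update S x z) T :=
    feas_move_left A S T z hS x hxA hz (by omega) (by rw [hxs]; exact hmin)
  have hU := U_update A S x hxA z (by omega)
  rw [hxs] at hU
  have hout : ∀ j, j ∉ A → Function.update S x z j = S j := by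
    intro j hj
    apply Function.update_of_ne
    rintro rfl; exact hj hxA
  rcases Nat.lt_or_ge (U A S s) 2 with h2 | h2
  · have hUs : U A S s = 1 := by omega
    have hts' : s < t := by
      rcases Nat.lt_or_ge s t with h | h
      · exact h
      · have : t = s := by omega
        rw [this] at ht; omega
    have e1 := hU s
    rw [if_pos rfl, if_neg (by omega : s ≠ z)] at e1
    have e2 := hU t
    rw [if_neg (by omega : t ≠ s), if_neg (by omega : t ≠ z)] at e2
    obtain ⟨S', t', h1, h2', h3, h4, h5⟩ := ih (T - s) (by omega) s (Function.update S x z) rfl hmove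
      (by omega) (by omega) ⟨t, hts', by omega⟩
    refine ⟨S', t', h1, by omega, ?_, ?_, ?_⟩
    · have e3 := hU t'
      rw [if_neg (by omega : t' ≠ s), if_neg (by omega : t' ≠ z)] at e3
      omega
    · intro j hj; rw [h4 j hj, hout j hj]
    · intro r
      have e4 := h5 r
      have e5 := hU r
      omega
  · refine ⟨Function.update S x z, s, hmove, hs.2.1, h2, hout, ?_⟩
    intro r
    exact hU r

/-- Filling an empty step `z` from a multiple step. -/
theorem shift (A : Finset J) (T z : ℕ) (S : J → ℕ) (hS : Feas A S T) (hz : z < T)
    (hUz : U A S z = 0) (h : ∃ t, 2 ≤ U A S t) :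
    ∃ (S' : J → ℕ) (t' : ℕ), Feas A S' T ∧ t' ≠ z ∧ 2 ≤ U A S t' ∧ (∀ j, j ∉ A → S' j = S j) ∧
      ∀ t, U A S' t + (if t = t' then 1 else 0) = U A S t + (if t = z then 1 else 0) := by
  obtain ⟨t, ht⟩ := h
  rcases Nat.lt_trichotomy t z with h1 | h1 | h1
  · obtain ⟨S', t', h2, h3, h4, h5, h6⟩ := shift_left A T z S hS hz hUz ⟨t, h1, ht⟩
    exact ⟨S', t', h2, by omega, h4, h5, h6⟩
  · rw [h1] at ht; omega
  · obtain ⟨S', t', h2, h3, h4, h5, h6⟩ := shift_right A T _ z S rfl hS hz hUz ⟨t, h1, ht⟩
    exact ⟨S', t', h2, by omega, h4, h5, h6⟩

/-- A finite order can be scheduled bijectively on any set of times of the same size. -/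
theorem chain_schedule : ∀ (n : ℕ) (A : Finset J) (C : Finset ℕ), A.card = n → C.card = n →
    ∃ σ : J → ℕ, (∀ a ∈ A, σ a ∈ C) ∧ (∀ a ∈ A, ∀ b ∈ A, σ a = σ b → a = b) ∧
      ∀ a ∈ A, ∀ b ∈ A, a < b → σ a < σ b := by
  intro n
  induction n with
  | zero =>
    intro A C hA hC
    have : A = ∅ := card_eq_zero.mp hA
    subst this
    exact ⟨fun _ => 0, by simp, by simp, by simp⟩
  | succ n ih =>
    intro A C hA hC
    have hne : A.Nonempty := card_pos.mp (by omega)
    have hCne : C.Nonempty := card_pos.mp (by omega)
    obtain ⟨a, ha⟩ := A.exists_maximal hne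
    have haA : a ∈ A := ha.1
    let s := C.max' hCne
    have hsC : s ∈ C := C.max'_mem hCne
    obtain ⟨σ, h1, h2, h3⟩ := ih (A.erase a) (C.erase s) (by rw [card_erase_of_mem haA]; omega)
      (by rw [card_erase_of_mem hsC]; omega)
    have hlt : ∀ b ∈ A.erase a, σ b < s := by
      intro b hb
      have hh := h1 b hb
      have h4 := C.le_max' (σ b) (mem_of_mem_erase hh)
      have h5 : σ b ≠ s := ne_of_mem_erase hh
      have h6 : σ b ≤ s := h4
      omega
    refine ⟨Function.update σ a s, ?_, ?_, ?_⟩
    · intro b hb
      by_cases hba : b = a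
      · subst hba; rw [Function.update_self]; exact hsC
      · rw [Function.update_of_ne hba]
        exact mem_of_mem_erase (h1 b (mem_erase.mpr ⟨hba, hb⟩))
    · intro b hb c hc hbc
      by_cases hba : b = a
      · by_cases hca : c = a
        · rw [hba, hca]
        · rw [hba, Function.update_self, Function.update_of_ne hca] at hbc
          have := hlt c (mem_erase.mpr ⟨hca, hc⟩)
          omega
      · by_cases hca : c = a
        · rw [hca, Function.update_self, Function.update_of_ne hba] at hbc
          have := hlt b (mem_erase.mpr ⟨hba, hb⟩)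
          omega
        · rw [Function.update_of_ne hba, Function.update_of_ne hca] at hbc
          exact h2 b (mem_erase.mpr ⟨hba, hb⟩) c (mem_erase.mpr ⟨hca, hc⟩) hbc
    · intro b hb c hc hbc
      by_cases hba : b = a
      · exfalso
        subst hba
        have := ha.2 hc hbc.le
        exact absurd hbc (not_lt_of_ge this)
      · by_cases hca : c = a
        · rw [hca, Function.update_self, Function.update_of_ne hba]
          exact hlt b (mem_erase.mpr ⟨hba, hb⟩)
        · rw [Function.update_of_ne hba, Function.update_of_ne hca]
          exact h3 b (mem_erase.mpr ⟨hba, hb⟩) c (mem_erase.mpr ⟨hca, hc⟩) hbc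

end

end Pool.Agent.Run7.h623
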